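import Pool.Agent.helper19.FR.Spec

/-!
# Project FR (MP_bf63dc_nt), row fr:ERR: the central estimate
-/

set_option autoImplicit false

namespace Pool.Agent.FR

open Finset Real Pool.Agent.AT Pool.Agent.OM Pool.Agent.helper85.FC

theorem ERR_mono {α : Type} [Fintype α] {f g : α → ℝ} (h : ∀ x, f x ≤ g x) : mean f ≤ mean g := by
  unfold mean
  exact div_le_div_of_nonneg_right (Finset.sum_le_sum fun x _ => h x) (Nat.cast_nonneg _)

theorem ERR_add {α : Type} [Fintype α] (f g : α → ℝ) : mean (fun x => f x + g x) = mean f + mean g := by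
  unfold mean
  rw [Finset.sum_add_distrib, add_div]

theorem ERR_mul {α : Type} [Fintype α] (c : ℝ) (f : α → ℝ) : mean (fun x => c * f x) = c * mean f := by
  unfold mean
  rw [← Finset.mul_sum, mul_div_assoc]

theorem ERR_comm {α β : Type} [Fintype α] [Fintype β] (f : α → β → ℝ) :
    mean (fun x => mean fun y => f x y) = mean (fun y => mean fun x => f x y) := by
  unfold mean
  rw [← Finset.sum_div, ← Finset.sum_div, Finset.sum_comm, div_div, div_div, mul_comm]

theorem ERR_const {α : Type} [Fintype α] [Nonempty α] (c : ℝ) : mean (fun _ : α => c) = c := by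
  unfold mean
  rw [Finset.sum_const, Finset.card_univ, nsmul_eq_mul]
  have h : (Fintype.card α : ℝ) ≠ 0 := Nat.cast_ne_zero.2 Fintype.card_ne_zero
  field_simp

theorem ERR_sum {α β : Type} [Fintype α] [Fintype β] (f : α → β → ℝ) :
    ∑ z, mean (f z) = mean fun x => ∑ z, f z x := by
  unfold mean
  rw [← Finset.sum_div, Finset.sum_comm]

theorem ERR_sq {α : Type} [Fintype α] (f : α → ℝ) : mean f ^ 2 = mean fun x => mean fun y => f x * f y := by
  have h : (fun x => mean fun y => f x * f y) = fun x => mean f * f x := by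
    funext x
    rw [ERR_mul, mul_comm]
  rw [h, ERR_mul, sq]

theorem ERR_cs {α : Type} [Fintype α] [Nonempty α] (f : α → ℝ) : mean f ^ 2 ≤ mean fun x => f x ^ 2 := by
  have h : 0 ≤ mean fun x => (f x - mean f) ^ 2 := by
    unfold mean
    exact div_nonneg (Finset.sum_nonneg fun x _ => sq_nonneg _) (Nat.cast_nonneg _)
  have e : (fun x => (f x - mean f) ^ 2) = fun x => f x ^ 2 + ((-2 * mean f) * f x + mean f ^ 2) := by
    funext x
    ring
  rw [e, ERR_add, ERR_add, ERR_mul, ERR_const] at h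
  nlinarith [h]

theorem ERR_abs {α : Type} [Fintype α] [Nonempty α] {f : α → ℝ} {c : ℝ} (h : ∀ x, |f x| ≤ c) : |mean f| ≤ c := by
  rw [abs_le]
  constructor
  · have h1 := ERR_mono (α := α) (f := fun _ => -c) (g := f) fun x => (abs_le.1 (h x)).1
    rwa [ERR_const] at h1
  · have h1 := ERR_mono (α := α) (f := f) (g := fun _ => c) fun x => (abs_le.1 (h x)).2
    rwa [ERR_const] at h1

theorem ERR_coord {I : Type} [Fintype I] [DecidableEq I] {X : ℕ} (hX : 1 ≤ X) (p : I) (F : (I → Fin X) → ℝ) :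
    mean F = mean fun ξ => mean fun z : Fin X => F (Function.update ξ p z) := by
  have hinv : Function.Involutive fun w : (I → Fin X) × Fin X => (Function.update w.1 p w.2, w.1 p) := by
    rintro ⟨ξ, z⟩
    simp
  have h : ∑ ξ, ∑ z : Fin X, F (Function.update ξ p z) = (X : ℝ) * ∑ ξ, F ξ := by
    have h1 : ∑ w : (I → Fin X) × Fin X, F (Function.update w.1 p w.2) = ∑ w : (I → Fin X) × Fin X, F w.1 :=
      Fintype.sum_equiv hinv.toPerm _ _ fun w => rfl
    rw [Fintype.sum_prod_type, Fintype.sum_prod_type] at h1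
    rw [h1, Finset.mul_sum]
    refine Finset.sum_congr rfl fun ξ _ => ?_
    simp only [Finset.sum_const, Finset.card_univ, Fintype.card_fin, nsmul_eq_mul]
  unfold mean
  rw [← Finset.sum_div, h, Fintype.card_fin]
  have hX' : (X : ℝ) ≠ 0 := by
    have : (0 : ℝ) < X := by exact_mod_cast hX
    exact this.ne'
  rw [mul_div_cancel_left₀ _ hX']

/-- the variance estimate -/
theorem ERR_var {I : Type} [Fintype I] [DecidableEq I] {H X : ℕ} (hH : 1 ≤ H) (hX : 1 ≤ X) (a b : I) (p : Fin H → I)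
    (hp : Function.Injective p) (ha : ∀ m, a ≠ p m) (hb : ∀ m, b ≠ p m) (g : Fin X → Fin X → Fin X → ℝ) (c : ℝ)
    (h0 : ∀ x y, mean (g x y) = 0) (h2 : ∀ x y, mean (fun z => g x y z ^ 2) ≤ c) :
    mean (fun ξ : I → Fin X => (mean fun m : Fin H => g (ξ a) (ξ b) (ξ (p m))) ^ 2) ≤ c / H := by
  have : Nonempty (Fin H) := ⟨⟨0, hH⟩⟩
  have : Nonempty (Fin X) := ⟨⟨0, hX⟩⟩
  have e1 : ∀ ξ : I → Fin X, (mean fun m : Fin H => g (ξ a) (ξ b) (ξ (p m))) ^ 2 =
      mean fun m : Fin H => mean fun n : Fin H => g (ξ a) (ξ b) (ξ (p m)) * g (ξ a) (ξ b) (ξ (p n)) := fun ξ => ERR_sq _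
  simp only [e1]
  rw [ERR_comm]
  have e2 : ∀ m : Fin H, (mean fun ξ : I → Fin X => mean fun n : Fin H => g (ξ a) (ξ b) (ξ (p m)) * g (ξ a) (ξ b) (ξ (p n))) =
      mean fun n : Fin H => mean fun ξ : I → Fin X => g (ξ a) (ξ b) (ξ (p m)) * g (ξ a) (ξ b) (ξ (p n)) := fun m => ERR_comm _
  simp only [e2]
  have h3 : ∀ m n : Fin H, (mean fun ξ : I → Fin X => g (ξ a) (ξ b) (ξ (p m)) * g (ξ a) (ξ b) (ξ (p n))) ≤ if m = n then c else 0 := by
    intro m n
    rw [ERR_coord hX (p m)]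
    have ua : ∀ (ξ : I → Fin X) (z : Fin X), Function.update ξ (p m) z a = ξ a := fun ξ z => Function.update_of_ne (ha m) _ _
    have ub : ∀ (ξ : I → Fin X) (z : Fin X), Function.update ξ (p m) z b = ξ b := fun ξ z => Function.update_of_ne (hb m) _ _
    simp only [ua, ub, Function.update_self]
    split_ifs with hmn
    · subst hmn
      simp only [Function.update_self]
      have h4 : ∀ ξ : I → Fin X, (mean fun z : Fin X => g (ξ a) (ξ b) z * g (ξ a) (ξ b) z) ≤ c := by
        intro ξ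
        have := h2 (ξ a) (ξ b)
        simpa only [sq] using this
      refine (ERR_mono h4).trans ?_
      rw [ERR_const]
    · have hne : p n ≠ p m := fun h => hmn (hp h).symm
      have un : ∀ (ξ : I → Fin X) (z : Fin X), Function.update ξ (p m) z (p n) = ξ (p n) := fun ξ z => Function.update_of_ne hne _ _
      simp only [un]
      have h4 : ∀ ξ : I → Fin X, (mean fun z : Fin X => g (ξ a) (ξ b) z * g (ξ a) (ξ b) (ξ (p n))) = 0 := by
        intro ξ
        have e : (fun z : Fin X => g (ξ a) (ξ b) z * g (ξ a) (ξ b) (ξ (p n))) = fun z => g (ξ a) (ξ b) (ξ (p n)) * g (ξ a) (ξ b) z := by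
          funext z
          ring
        rw [e, ERR_mul]
        have h5 : mean (fun z => g (ξ a) (ξ b) z) = 0 := h0 _ _
        rw [h5, mul_zero]
      simp only [h4]
      rw [ERR_const]
  refine (ERR_mono fun m => ERR_mono fun n => h3 m n).trans ?_
  have h6 : ∀ m : Fin H, (mean fun n : Fin H => if m = n then c else 0) = c / H := by
    intro m
    unfold mean
    rw [Finset.sum_ite_eq, if_pos (Finset.mem_univ _), Fintype.card_fin]
  simp only [h6]
  rw [ERR_const]

theorem ERR_L1 {Ω : Type} [Fintype Ω] [Nonempty Ω] (f : Ω → ℝ) (c : ℝ) (hc : 0 ≤ c) (h : mean (fun ξ => f ξ ^ 2) ≤ c ^ 2) :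
    mean (fun ξ => |f ξ|) ≤ c := by
  have h1 := ERR_cs fun ξ => |f ξ|
  simp only [sq_abs] at h1
  exact (abs_le_of_sq_le_sq' (h1.trans h) hc).2

theorem ERR : ERR_stmt := by
  intro ι _ _ H X j i i' Q q hH hX hj hii hq hQ
  have : Nonempty (Fin H) := ⟨⟨0, hH⟩⟩
  have : Nonempty (Fin X) := ⟨⟨0, hX⟩⟩
  have hH0 : (0 : ℝ) < H := by exact_mod_cast hH
  have hX0 : (0 : ℝ) < X := by exact_mod_cast hX
  have hQQ : ∀ x y z w, |Q x z * Q y w| ≤ q ^ 2 := by
    intro x y z w
    rw [abs_mul, sq]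
    exact mul_le_mul (hQ _ _) (hQ _ _) (abs_nonneg _) hq
  have hΨ : ∀ x y, |mean fun z => Q x z * Q y z| ≤ q ^ 2 := fun x y => ERR_abs fun z => hQQ _ _ _ _
  have hjj : ∀ (ξ : ι × Fin H → Fin X) (a b : ι × Fin H), 0 ≤ j ξ a * j ξ b ∧ j ξ a * j ξ b ≤ 1 := fun ξ a b =>
    ⟨mul_nonneg (hj ξ a).1 (hj ξ b).1, mul_le_one₀ (hj ξ a).2 (hj ξ b).1 (hj ξ b).2⟩
  -- step A
  have hA : corr j i i' Q ^ 2 ≤ mean fun ξ : ι × Fin H → Fin X => mean fun m : Fin H => mean fun n : Fin H =>
      (j ξ (i, m) * j ξ (i, n)) * mean fun m' : Fin H => Q (ξ (i, m)) (ξ (i', m')) * Q (ξ (i, n)) (ξ (i', m')) := by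
    unfold corr
    refine (ERR_cs _).trans (ERR_mono fun ξ => ?_)
    have e1 : (mean fun m : Fin H => mean fun m' : Fin H => j ξ (i, m) * j ξ (i', m') * Q (ξ (i, m)) (ξ (i', m'))) =
        mean fun m' : Fin H => j ξ (i', m') * mean fun m : Fin H => j ξ (i, m) * Q (ξ (i, m)) (ξ (i', m')) := by
      rw [ERR_comm]
      congr 1
      funext m'
      rw [← ERR_mul]
      congr 1
      funext m
      ring
    rw [e1]
    refine (ERR_cs _).trans ?_
    have h2 : ∀ m' : Fin H, (j ξ (i', m') * mean fun m : Fin H => j ξ (i, m) * Q (ξ (i, m)) (ξ (i', m'))) ^ 2 ≤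
        mean fun m : Fin H => mean fun n : Fin H => (j ξ (i, m) * Q (ξ (i, m)) (ξ (i', m'))) * (j ξ (i, n) * Q (ξ (i, n)) (ξ (i', m'))) := by
      intro m'
      rw [← ERR_sq, mul_pow]
      have h3 : j ξ (i', m') ^ 2 ≤ 1 := pow_le_one₀ (hj ξ _).1 (hj ξ _).2
      nlinarith [sq_nonneg (mean fun m : Fin H => j ξ (i, m) * Q (ξ (i, m)) (ξ (i', m')))]
    refine (ERR_mono h2).trans (le_of_eq ?_)
    rw [ERR_comm]
    congr 1
    funext m
    rw [ERR_comm]
    congr 1
    funext n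
    rw [← ERR_mul]
    congr 1
    funext m'
    ring
  -- step B
  have hB : ∀ m n : Fin H, (mean fun ξ : ι × Fin H → Fin X => |mean fun m' : Fin H =>
      (Q (ξ (i, m)) (ξ (i', m')) * Q (ξ (i, n)) (ξ (i', m')) - mean fun z => Q (ξ (i, m)) z * Q (ξ (i, n)) z)|) ≤ q ^ 2 * (1 / √H) := by
    intro m n
    refine ERR_L1 _ _ (by positivity) ?_
    refine (ERR_var hH hX (i, m) (i, n) (fun m' => (i', m')) (fun _ _ h => (Prod.mk.inj h).2) (fun m' h => hii (Prod.mk.inj h).1)
      (fun m' h => hii (Prod.mk.inj h).1) (fun x y z => Q x z * Q y z - mean fun z => Q x z * Q y z) (q ^ 4) ?_ ?_).trans (le_of_eq ?_)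
    · intro x y
      have e : (fun z => Q x z * Q y z - mean fun z => Q x z * Q y z) = fun z => Q x z * Q y z + (-1) * mean fun z => Q x z * Q y z := by
        funext z
        ring
      rw [e, ERR_add, ERR_const]
      ring
    · intro x y
      have e : (fun z => (Q x z * Q y z - mean fun z => Q x z * Q y z) ^ 2) = fun z => (Q x z * Q y z) ^ 2 +
          ((-2 * mean fun z => Q x z * Q y z) * (Q x z * Q y z) + (mean fun z => Q x z * Q y z) ^ 2) := by
        funext z
        ring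
      rw [e, ERR_add, ERR_add, ERR_mul, ERR_const]
      have h5 : (mean fun z => (Q x z * Q y z) ^ 2) ≤ q ^ 4 := by
        refine (ERR_mono (g := fun _ => q ^ 4) fun z => ?_).trans (le_of_eq (ERR_const _))
        have h6 := hQQ x y z z
        have h7 : (Q x z * Q y z) ^ 2 ≤ (q ^ 2) ^ 2 := sq_le_sq' (abs_le.1 h6).1 (abs_le.1 h6).2
        calc (Q x z * Q y z) ^ 2 ≤ (q ^ 2) ^ 2 := h7
          _ = q ^ 4 := by ring
      nlinarith [sq_nonneg (mean fun z => Q x z * Q y z)]
    · rw [mul_pow, div_pow, one_pow, Real.sq_sqrt hH0.le]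
      ring
  -- step C
  have hC : corr j i i' Q ^ 2 ≤ (mean fun ξ : ι × Fin H → Fin X => mean fun m : Fin H => mean fun n : Fin H =>
      (j ξ (i, m) * j ξ (i, n)) * mean fun z => Q (ξ (i, m)) z * Q (ξ (i, n)) z) + q ^ 2 * (1 / √H) := by
    refine hA.trans ?_
    have h1 : ∀ (ξ : ι × Fin H → Fin X) (m n : Fin H),
        (j ξ (i, m) * j ξ (i, n)) * (mean fun m' : Fin H => Q (ξ (i, m)) (ξ (i', m')) * Q (ξ (i, n)) (ξ (i', m'))) ≤
        (j ξ (i, m) * j ξ (i, n)) * (mean fun z => Q (ξ (i, m)) z * Q (ξ (i, n)) z) + |mean fun m' : Fin H =>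
          (Q (ξ (i, m)) (ξ (i', m')) * Q (ξ (i, n)) (ξ (i', m')) - mean fun z => Q (ξ (i, m)) z * Q (ξ (i, n)) z)| := by
      intro ξ m n
      have e : (mean fun m' : Fin H => (Q (ξ (i, m)) (ξ (i', m')) * Q (ξ (i, n)) (ξ (i', m')) - mean fun z => Q (ξ (i, m)) z * Q (ξ (i, n)) z)) =
          (mean fun m' : Fin H => Q (ξ (i, m)) (ξ (i', m')) * Q (ξ (i, n)) (ξ (i', m'))) - mean fun z => Q (ξ (i, m)) z * Q (ξ (i, n)) z := by
        have e' : (fun m' : Fin H => (Q (ξ (i, m)) (ξ (i', m')) * Q (ξ (i, n)) (ξ (i', m')) - mean fun z => Q (ξ (i, m)) z * Q (ξ (i, n)) z)) =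
            fun m' : Fin H => Q (ξ (i, m)) (ξ (i', m')) * Q (ξ (i, n)) (ξ (i', m')) + (-1) * mean fun z => Q (ξ (i, m)) z * Q (ξ (i, n)) z := by
          funext m'
          ring
        rw [e', ERR_add, ERR_const]
        ring
      rw [e]
      obtain ⟨h2, h3⟩ := hjj ξ (i, m) (i, n)
      generalize (mean fun m' : Fin H => Q (ξ (i, m)) (ξ (i', m')) * Q (ξ (i, n)) (ξ (i', m'))) = A at *
      generalize (mean fun z => Q (ξ (i, m)) z * Q (ξ (i, n)) z) = B at *
      have h4 : (j ξ (i, m) * j ξ (i, n)) * (A - B) ≤ |A - B| := by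
        calc (j ξ (i, m) * j ξ (i, n)) * (A - B) ≤ (j ξ (i, m) * j ξ (i, n)) * |A - B| := mul_le_mul_of_nonneg_left (le_abs_self _) h2
          _ ≤ 1 * |A - B| := mul_le_mul_of_nonneg_right h3 (abs_nonneg _)
          _ = |A - B| := one_mul _
      nlinarith [h4]
    refine (ERR_mono fun ξ => ERR_mono fun m => ERR_mono fun n => h1 ξ m n).trans ?_
    simp only [ERR_add]
    refine add_le_add le_rfl ?_
    rw [ERR_comm]
    have h2 : ∀ m : Fin H, (mean fun ξ : ι × Fin H → Fin X => mean fun n : Fin H => |mean fun m' : Fin H =>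
        (Q (ξ (i, m)) (ξ (i', m')) * Q (ξ (i, n)) (ξ (i', m')) - mean fun z => Q (ξ (i, m)) z * Q (ξ (i, n)) z)|) ≤ q ^ 2 * (1 / √H) := by
      intro m
      rw [ERR_comm]
      exact (ERR_mono (hB m)).trans (le_of_eq (ERR_const _))
    exact (ERR_mono h2).trans (le_of_eq (ERR_const _))
  -- step D
  have hD : (mean fun ξ : ι × Fin H → Fin X => mean fun m : Fin H => mean fun n : Fin H =>
      (j ξ (i, m) * j ξ (i, n)) * mean fun z => Q (ξ (i, m)) z * Q (ξ (i, n)) z) ≤
      (mean fun ξ : ι × Fin H → Fin X => mean fun m : Fin H => mean fun n : Fin H =>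
        if m ≠ n then (j ξ (i, m) * j ξ (i, n)) * mean (fun z => Q (ξ (i, m)) z * Q (ξ (i, n)) z) else 0) + q ^ 2 * (1 / H) := by
    have h1 : ∀ (ξ : ι × Fin H → Fin X) (m n : Fin H), (j ξ (i, m) * j ξ (i, n)) * (mean fun z => Q (ξ (i, m)) z * Q (ξ (i, n)) z) ≤
        (if m ≠ n then (j ξ (i, m) * j ξ (i, n)) * mean (fun z => Q (ξ (i, m)) z * Q (ξ (i, n)) z) else 0) + (if m = n then q ^ 2 else 0) := by
      intro ξ m n
      by_cases hmn : m = n
      · rw [if_neg (not_not.2 hmn), if_pos hmn, zero_add]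
        obtain ⟨h2, h3⟩ := hjj ξ (i, m) (i, n)
        calc (j ξ (i, m) * j ξ (i, n)) * (mean fun z => Q (ξ (i, m)) z * Q (ξ (i, n)) z)
            ≤ (j ξ (i, m) * j ξ (i, n)) * q ^ 2 := mul_le_mul_of_nonneg_left (abs_le.1 (hΨ _ _)).2 h2
          _ ≤ 1 * q ^ 2 := mul_le_mul_of_nonneg_right h3 (sq_nonneg _)
          _ = q ^ 2 := one_mul _
      · rw [if_pos hmn, if_neg hmn, add_zero]
    refine (ERR_mono fun ξ => ERR_mono fun m => ERR_mono fun n => h1 ξ m n).trans ?_
    simp only [ERR_add]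
    refine add_le_add le_rfl ?_
    have h6 : ∀ m : Fin H, (mean fun n : Fin H => if m = n then q ^ 2 else 0) = q ^ 2 * (1 / H) := by
      intro m
      unfold mean
      rw [Finset.sum_ite_eq, if_pos (Finset.mem_univ _), Fintype.card_fin]
      ring
    simp only [h6]
    rw [ERR_const, ERR_const]
  -- step E
  have hE : (mean fun ξ : ι × Fin H → Fin X => mean fun m : Fin H => mean fun n : Fin H =>
        if m ≠ n then (j ξ (i, m) * j ξ (i, n)) * mean (fun z => Q (ξ (i, m)) z * Q (ξ (i, n)) z) else 0) =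
      mean (fun z : Fin X × Fin X => ker j i z.1 z.2 * mean (fun y => Q z.1 y * Q z.2 y)) := by
    have e1 : mean (fun z : Fin X × Fin X => ker j i z.1 z.2 * mean (fun y => Q z.1 y * Q z.2 y)) =
        ∑ z : Fin X × Fin X, mean (fun ξ : ι × Fin H → Fin X => mean fun m : Fin H => mean fun n : Fin H =>
          if m ≠ n ∧ ξ (i, m) = z.1 ∧ ξ (i, n) = z.2 then j ξ (i, m) * j ξ (i, n) * mean (fun y => Q z.1 y * Q z.2 y) else 0) := by
      have e2 : ∀ z : Fin X × Fin X, ker j i z.1 z.2 * mean (fun y => Q z.1 y * Q z.2 y) = (X : ℝ) ^ 2 *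
          mean (fun ξ : ι × Fin H → Fin X => mean fun m : Fin H => mean fun n : Fin H =>
          if m ≠ n ∧ ξ (i, m) = z.1 ∧ ξ (i, n) = z.2 then j ξ (i, m) * j ξ (i, n) * mean (fun y => Q z.1 y * Q z.2 y) else 0) := by
        intro z
        unfold ker
        rw [mul_assoc, mul_comm (mean fun ξ : ι × Fin H → Fin X => _) (mean fun y => Q z.1 y * Q z.2 y), ← ERR_mul]
        congr 2
        funext ξ
        rw [← ERR_mul]
        congr 1
        funext m
        rw [← ERR_mul]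
        congr 1
        funext n
        split_ifs
        · ring
        · ring
      simp only [e2]
      unfold mean
      rw [← Finset.mul_sum, Fintype.card_prod, Fintype.card_fin, Nat.cast_mul, ← sq]
      rw [mul_div_cancel_left₀ _ (pow_ne_zero 2 hX0.ne')]
    rw [e1, ERR_sum]
    congr 1
    funext ξ
    rw [ERR_sum]
    congr 1
    funext m
    rw [ERR_sum]
    congr 1
    funext n
    rw [Finset.sum_eq_single (ξ (i, m), ξ (i, n))]
    · by_cases hmn : m ≠ n
      · rw [if_pos hmn, if_pos ⟨hmn, rfl, rfl⟩]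
      · rw [if_neg hmn, if_neg fun h => hmn h.1]
    · rintro ⟨x, y⟩ - hz
      rw [if_neg]
      rintro ⟨-, h1, h2⟩
      exact hz (Prod.ext h1.symm h2.symm)
    · intro h
      exact absurd (Finset.mem_univ _) h
  rw [hE] at hD
  have h := hC.trans (add_le_add hD le_rfl)
  refine h.trans (le_of_eq ?_)
  ring

end Pool.Agent.FR
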